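import Mathlib
import Pool.Agent.KS6_52.KH.Model
import Pool.Agent.KS6_52.KH.Delta
import Pool.Agent.KS6_52.KH.NoSorts
import Pool.Agent.KS6_52.KH.Wem
import Pool.Agent.KS6_52.KH.Coh

set_option autoImplicit false

/-!
# Completeness of the homotopical semantics in Kan complexes: all signatures

Signatures, formulas in context, the calculus `Der`, structures `Str`, `Str.IsKan` and the
homotopical interpretation `Interpretation`, `Interpretation.True` are those of the starting
result (`Pool.Graph.R_seed8.H642R3.Hom.Syntax`, `Sem`).  New definitions
(`Pool.Agent.KS6_52.KH.Defs`):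

* `AllImp φ`: `φ` is built from equations by `⇒` and `∀` only;
* `Coherent φ`: `φ` is built from equations by `⊤`, `⊥`, `∧`, `∨`, `∃` only;
* `closure φ`: the universal closure of a formula in context;
* `IsEmWem χ`: `χ` is `ψ ∨ ¬ψ` for a sentence `ψ`, or the universal closure of `¬φ ∨ ¬¬φ` for an
  arbitrary formula `φ`;
* `delta A`: the sentence `∀ x : A, ∼∼D(x) ⇒ D(x)`, where `D(x)` is `∀ y : A, ∼∼ x = y ⇒ x = y`
  and `∼φ` is `φ ⇒ ∀ u v : A, u = v`.

`delta A` is true: if the interpretation `X` of `A` is nonempty and not contractible, `∼` is negation, and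
`∼∼D(x)` says that the component of `x` is contractible; base points of the contractible
components and contractions to them are chosen, and families of paths are composed by filling
horns in the Kan complex of maps `Z → X`.  It is not derivable: in a set with an endomorphism
(one orbit `x₀, x₁, …`, a second point `y₀ ↦ x₁`, and a fixed point, the value of all function
symbols), regarded as a Kripke model, `∼∼D(x₀)` holds and `D(x₀)` fails.
-/

namespace Pool.Agent.Results.MP_57cfa6_lc.SignatureClassification

open Pool.Agent.H642R3.Hom Pool.Agent.KS6_52.KH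

/-- `φ` is true in all structures in `Kan`, for the homotopical semantics. -/
def KanTrue {σ : Signature} (φ : Sentence σ) : Prop :=
  ∀ M : Str σ, M.IsKan → ∀ I : Interpretation M, I.True φ

/-- **Completeness of the homotopical semantics, for each signature `σ`.**
(1) Every sentence over `σ` which is true in all structures in `Kan` is intuitionistically
derivable if and only if `σ` has no sorts.
(2) For every sort `A` of `σ` the sentence `delta A`, built from equations by `∀` and `⇒` only,
is true in all structures in `Kan`, but it is not derivable, not even from instances of excluded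
middle for sentences and of weak excluded middle for arbitrary formulas, which
(3) are all true in all structures in `Kan`.
(4), (5) Every sentence `∀ x₁ … xₙ, (φ ⇒ θ)` or `∀ x₁ … xₙ, θ` with `φ`, `θ` coherent that is true
in all structures in `Kan` is derivable.
(6) The interpretation exists in every structure. -/
theorem result (σ : Signature) :
    ((∀ φ : Sentence σ, KanTrue φ → Der [] φ) ↔ IsEmpty σ.Srt) ∧
    (∀ A : σ.Srt, AllImp (delta A) ∧ KanTrue (delta A) ∧
      ∀ H : List (Sentence σ), (∀ χ ∈ H, IsEmWem χ) → ¬ Der H (delta A)) ∧
    (∀ χ : Sentence σ, IsEmWem χ → KanTrue χ) ∧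
    (∀ (Γ : List σ.Srt) (φ θ : Fm σ Γ), Coherent φ → Coherent θ →
      KanTrue (closure (φ.imp θ)) → Der [] (closure (φ.imp θ))) ∧
    (∀ (Γ : List σ.Srt) (θ : Fm σ Γ), Coherent θ → KanTrue (closure θ) → Der [] (closure θ)) ∧
    ∀ M : Str σ, Nonempty (Interpretation M) := by
  refine ⟨⟨fun h => ⟨fun A => ?_⟩, fun h φ hφ => complete_of_isEmpty h φ hφ⟩,
    fun A => ⟨allImp_delta A, fun M hM I => delta_true A (hM A), fun H hH => not_der_delta A H hH⟩,
    fun χ hχ M hM I => axioms_true hM χ hχ,
    fun Γ φ θ hφ hθ h => coherent_imp φ θ hφ hθ h,
    fun Γ θ hθ h => coherent_closure θ hθ h, fun M => ⟨theInterpretation M⟩⟩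
  exact not_der_delta A [] (by simp) (h _ fun M hM I => delta_true A (hM A))

end Pool.Agent.Results.MP_57cfa6_lc.SignatureClassification
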